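import Pool.Agent.Helper70.MB.Goals

/-!
Packet MB-YOUNG of project MB (helper70), MP_91ee6f_gt: Young's inequality.
-/

open MeasureTheory Set Metric
open scoped ENNReal Topology

namespace Pool.Agent.Helper51.MB

theorem cs {α : Type*} [MeasurableSpace α] (μ : Measure α) {u v : α → ℝ≥0∞}
    (hu : AEMeasurable u μ) (hv : AEMeasurable v μ) :
    ∫⁻ x, u x * v x ∂μ ≤ (∫⁻ x, u x ^ 2 ∂μ) ^ (1 / 2 : ℝ) * (∫⁻ x, v x ^ 2 ∂μ) ^ (1 / 2 : ℝ) := by
  have h := ENNReal.lintegral_mul_le_Lp_mul_Lq μ (p := 2) (q := 2)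
    (by rw [Real.holderConjugate_iff]; norm_num) hu hv
  simpa using h

theorem half_sq (x : ℝ≥0∞) : (x ^ (1 / 2 : ℝ)) ^ 2 = x := by
  rw [← ENNReal.rpow_natCast, ← ENNReal.rpow_mul]
  norm_num

theorem cs2 {α : Type*} [MeasurableSpace α] (μ : Measure α) {u v : α → ℝ≥0∞}
    (hu : AEMeasurable u μ) (hv : AEMeasurable v μ) :
    (∫⁻ x, u x * v x ∂μ) ^ 2 ≤ (∫⁻ x, u x ^ 2 ∂μ) * (∫⁻ x, v x ^ 2 ∂μ) := by
  refine (pow_le_pow_left' (cs μ hu hv) 2).trans (le_of_eq ?_)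
  rw [mul_pow, half_sq, half_sq]

variable {E : Type*} [NormedAddCommGroup E] [MeasureSpace E] [BorelSpace E]
  [SecondCountableTopology E] [SFinite (volume : Measure E)]
  [(volume : Measure E).IsAddLeftInvariant] [(volume : Measure E).IsNegInvariant]

theorem part1 {F G f : E → ℝ≥0∞} (hF : Measurable F) (hG : Measurable G) (hf : Measurable f) :
    ∫⁻ p : E × E, F p.1 * (G (p.1 - p.2) * f p.2) ∂((volume : Measure E).prod volume) ≤
      (∫⁻ x, F x ^ 2) ^ (1 / 2 : ℝ) * (∫⁻ x, G x) * (∫⁻ x, f x ^ 2) ^ (1 / 2 : ℝ) := by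
  rw [lintegral_prod _ (by fun_prop)]
  have h1 : ∀ ζ : E, ∫⁻ ξ, F ζ * (G (ζ - ξ) * f ξ) = ∫⁻ a, F ζ * (G a * f (ζ - a)) := by
    intro ζ
    rw [← lintegral_sub_left_eq_self (fun a => F ζ * (G a * f (ζ - a))) ζ]
    simp
  simp only [h1]
  rw [lintegral_lintegral_swap (by fun_prop)]
  have h2 : ∀ a : E, ∫⁻ ζ, F ζ * (G a * f (ζ - a)) ≤
      G a * ((∫⁻ x, F x ^ 2) ^ (1 / 2 : ℝ) * (∫⁻ x, f x ^ 2) ^ (1 / 2 : ℝ)) := by
    intro a
    have e1 : ∫⁻ ζ, F ζ * (G a * f (ζ - a)) = G a * ∫⁻ ζ, F ζ * f (ζ - a) := by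
      rw [← lintegral_const_mul _ (by fun_prop)]
      refine lintegral_congr fun ζ => ?_
      ring
    rw [e1]
    gcongr
    refine (cs volume hF.aemeasurable (by fun_prop : AEMeasurable (fun ζ => f (ζ - a)))).trans ?_
    rw [lintegral_sub_right_eq_self (fun ζ => f ζ ^ 2) a]
  refine (lintegral_mono h2).trans (le_of_eq ?_)
  rw [lintegral_mul_const _ hG]
  ring

theorem part2 {G f : E → ℝ≥0∞} (hG : Measurable G) (hf : Measurable f) :
    ∫⁻ ζ : E, (∫⁻ ξ, G (ζ - ξ) * f ξ) ^ 2 ≤ (∫⁻ x, G x) ^ 2 * ∫⁻ x, f x ^ 2 := by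
  have h1 : ∀ ζ : E, (∫⁻ ξ, G (ζ - ξ) * f ξ) ^ 2 ≤
      (∫⁻ x, G x) * ∫⁻ ξ, G (ζ - ξ) * f ξ ^ 2 := by
    intro ζ
    have h2 := cs2 volume (u := fun ξ : E => (G (ζ - ξ)) ^ (1 / 2 : ℝ))
      (v := fun ξ => (G (ζ - ξ)) ^ (1 / 2 : ℝ) * f ξ) (by fun_prop) (by fun_prop)
    have e1 : ∀ ξ, (G (ζ - ξ)) ^ (1 / 2 : ℝ) * ((G (ζ - ξ)) ^ (1 / 2 : ℝ) * f ξ)
        = G (ζ - ξ) * f ξ := by
      intro ξ
      rw [← mul_assoc, ← sq, half_sq]
    simp only [e1, mul_pow, half_sq] at h2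
    rwa [lintegral_sub_left_eq_self G ζ] at h2
  refine (lintegral_mono h1).trans ?_
  rw [lintegral_const_mul _ (by fun_prop), lintegral_lintegral_swap (by fun_prop), sq, mul_assoc]
  gcongr
  have h3 : ∀ ξ : E, ∫⁻ ζ, G (ζ - ξ) * f ξ ^ 2 = (∫⁻ x, G x) * f ξ ^ 2 := by
    intro ξ
    rw [lintegral_mul_const _ (by fun_prop), lintegral_sub_right_eq_self G ξ]
  simp only [h3]
  rw [lintegral_const_mul _ (by fun_prop)]

end Pool.Agent.Helper51.MB

namespace Pool.Agent.Helper51.MB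

open Pool.Agent.Helper70.MB Pool.Agent.Results.MP_91ee6f_gt

theorem young : YOUNG := by
  intro n F G f hF0 hG0 hf0 hF hG hf hF2 hG1 hf2
  -- extended versions
  have hF' : Measurable (fun x => ENNReal.ofReal (F x)) := hF.ennreal_ofReal
  have hG' : Measurable (fun x => ENNReal.ofReal (G x)) := hG.ennreal_ofReal
  have hf' : Measurable (fun x => ENNReal.ofReal (f x)) := hf.ennreal_ofReal
  have eF : ∫⁻ x, ENNReal.ofReal (F x) ^ 2 = ENNReal.ofReal (∫ x, F x ^ 2) := by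
    rw [ofReal_integral_eq_lintegral_ofReal hF2 (Filter.Eventually.of_forall fun x => sq_nonneg _)]
    refine lintegral_congr fun x => ?_
    rw [ENNReal.ofReal_pow (hF0 x)]
  have ef : ∫⁻ x, ENNReal.ofReal (f x) ^ 2 = ENNReal.ofReal (∫ x, f x ^ 2) := by
    rw [ofReal_integral_eq_lintegral_ofReal hf2 (Filter.Eventually.of_forall fun x => sq_nonneg _)]
    refine lintegral_congr fun x => ?_
    rw [ENNReal.ofReal_pow (hf0 x)]
  have eG : ∫⁻ x, ENNReal.ofReal (G x) = ENNReal.ofReal (∫ x, G x) :=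
    (ofReal_integral_eq_lintegral_ofReal hG1 (Filter.Eventually.of_forall hG0)).symm
  have hFn : 0 ≤ ∫ x, F x ^ 2 := integral_nonneg fun x => sq_nonneg _
  have hfn : 0 ≤ ∫ x, f x ^ 2 := integral_nonneg fun x => sq_nonneg _
  have hGn : 0 ≤ ∫ x, G x := integral_nonneg hG0
  have half : ∀ a : ℝ, 0 ≤ a → (ENNReal.ofReal a) ^ (1 / 2 : ℝ) = ENNReal.ofReal (Real.sqrt a) := by
    intro a ha
    rw [ENNReal.ofReal_rpow_of_nonneg ha (by norm_num), Real.sqrt_eq_rpow]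
  refine ⟨?_, ?_⟩
  · -- first part
    have hm : Measurable (fun p : En n × En n => F p.1 * (G (p.1 - p.2) * f p.2)) := by fun_prop
    have h0 : ∀ p : En n × En n, 0 ≤ F p.1 * (G (p.1 - p.2) * f p.2) := fun p =>
      mul_nonneg (hF0 _) (mul_nonneg (hG0 _) (hf0 _))
    have h1 := part1 hF' hG' hf'
    rw [eF, ef, eG, half _ hFn, half _ hfn, ← ENNReal.ofReal_mul (Real.sqrt_nonneg _),
      ← ENNReal.ofReal_mul (by positivity)] at h1
    have h2 : ∫⁻ p : En n × En n, ENNReal.ofReal (F p.1 * (G (p.1 - p.2) * f p.2))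
        ∂((volume : Measure (En n)).prod volume) ≤
        ENNReal.ofReal (Real.sqrt (∫ x, F x ^ 2) * (∫ x, G x) * Real.sqrt (∫ x, f x ^ 2)) := by
      refine le_trans (le_of_eq (lintegral_congr fun p => ?_)) h1
      rw [ENNReal.ofReal_mul (hF0 _), ENNReal.ofReal_mul (hG0 _)]
    have hint : Integrable (fun p : En n × En n => F p.1 * (G (p.1 - p.2) * f p.2))
        ((volume : Measure (En n)).prod volume) := by
      refine ⟨hm.aestronglyMeasurable, ?_⟩
      rw [hasFiniteIntegral_iff_ofReal (Filter.Eventually.of_forall h0)]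
      exact h2.trans_lt ENNReal.ofReal_lt_top
    refine ⟨hint, ?_⟩
    rw [integral_eq_lintegral_of_nonneg_ae (Filter.Eventually.of_forall h0)
      hm.aestronglyMeasurable]
    exact ENNReal.toReal_le_of_le_ofReal (by positivity) h2
  · -- second part
    have h1 := part2 hG' hf'
    rw [ef, eG, ← ENNReal.ofReal_pow hGn, ← ENNReal.ofReal_mul (by positivity)] at h1
    have hHm : Measurable (fun ζ : En n => ∫⁻ ξ, ENNReal.ofReal (G (ζ - ξ)) *
        ENNReal.ofReal (f ξ)) := by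
      refine Measurable.lintegral_prod_right' (f := fun p : En n × En n =>
        ENNReal.ofReal (G (p.1 - p.2)) * ENNReal.ofReal (f p.2)) ?_
      fun_prop
    have hfin : ∀ᵐ ζ : En n, (∫⁻ ξ, ENNReal.ofReal (G (ζ - ξ)) * ENNReal.ofReal (f ξ)) < ⊤ := by
      have h2 := ae_lt_top (hHm.pow_const 2) (h1.trans_lt ENNReal.ofReal_lt_top).ne
      filter_upwards [h2] with ζ hζ
      by_contra hc
      rw [not_lt, top_le_iff] at hc
      rw [hc] at hζ
      simp at hζ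
    have h0 : ∀ ζ ξ : En n, 0 ≤ G (ζ - ξ) * f ξ := fun ζ ξ => mul_nonneg (hG0 _) (hf0 _)
    have hI : ∀ ζ : En n, ∫ ξ, G (ζ - ξ) * f ξ =
        (∫⁻ ξ, ENNReal.ofReal (G (ζ - ξ)) * ENNReal.ofReal (f ξ)).toReal := by
      intro ζ
      rw [integral_eq_lintegral_of_nonneg_ae (Filter.Eventually.of_forall (h0 ζ))
        (by fun_prop : Measurable fun ξ => G (ζ - ξ) * f ξ).aestronglyMeasurable]
      congr 1
      refine lintegral_congr fun ξ => ?_
      rw [ENNReal.ofReal_mul (hG0 _)]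
    refine ⟨?_, ?_⟩
    · filter_upwards [hfin] with ζ hζ
      refine ⟨(by fun_prop : Measurable fun ξ => G (ζ - ξ) * f ξ).aestronglyMeasurable, ?_⟩
      rw [hasFiniteIntegral_iff_ofReal (Filter.Eventually.of_forall (h0 ζ))]
      refine lt_of_le_of_lt (le_of_eq (lintegral_congr fun ξ => ?_)) hζ
      rw [ENNReal.ofReal_mul (hG0 _)]
    · have hSm : Measurable (fun ζ : En n => (∫ ξ, G (ζ - ξ) * f ξ) ^ 2) := by
        simp only [hI]
        exact hHm.ennreal_toReal.pow_const 2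
      have h3 : ∫⁻ ζ : En n, ENNReal.ofReal ((∫ ξ, G (ζ - ξ) * f ξ) ^ 2) ≤
          ENNReal.ofReal ((∫ x, G x) ^ 2 * ∫ x, f x ^ 2) := by
        refine le_trans (lintegral_mono fun ζ => ?_) h1
        rw [hI, ENNReal.ofReal_pow ENNReal.toReal_nonneg]
        gcongr
        exact ENNReal.ofReal_toReal_le
      have hint : Integrable (fun ζ : En n => (∫ ξ, G (ζ - ξ) * f ξ) ^ 2) := by
        refine ⟨hSm.aestronglyMeasurable, ?_⟩
        rw [hasFiniteIntegral_iff_ofReal (Filter.Eventually.of_forall fun ζ => sq_nonneg _)]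
        exact h3.trans_lt ENNReal.ofReal_lt_top
      refine ⟨hint, ?_⟩
      rw [integral_eq_lintegral_of_nonneg_ae (Filter.Eventually.of_forall fun ζ => sq_nonneg _)
        hSm.aestronglyMeasurable]
      exact ENNReal.toReal_le_of_le_ofReal (by positivity) h3

end Pool.Agent.Helper51.MB
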